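import Pool.Agent.H95.ND.Targets

/-!
# MP_57ddd5_pr: modules CNT, GPR
-/

open MeasureTheory ProbabilityTheory
open scoped ENNReal

namespace Pool.Agent.H95.PD

open Pool.Agent.H99.NS Pool.Agent.H22.LPP Pool.Agent.H95.INS Pool.Agent.H76.ND
open Pool.Agent.H95.ND
open Pool.Agent.H97.NF (PEnv eA eB PN)

/-- number of windows near a point -/
theorem count_win (W : Finset ℤ) (x r A : ℤ) (a1 k : ℕ) (hA : 1 ≤ A) (hk : a1 ≤ k) :
    ((W.filter (fun w => |x - (w * 16 ^ a1 + r)| < A * 16 ^ k)).card : ℤ) ≤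
      3 * A * 16 ^ (k - a1) := by
  classical
  set F := W.filter (fun w => |x - (w * 16 ^ a1 + r)| < A * 16 ^ k) with hF
  have h16 : (0 : ℤ) < 16 ^ a1 := by positivity
  have hkk : (16 : ℤ) ^ k = 16 ^ a1 * 16 ^ (k - a1) := by
    rw [← pow_add, Nat.add_sub_cancel' hk]
  have h1 : (1 : ℤ) ≤ 16 ^ (k - a1) := one_le_pow₀ (by norm_num)
  set n : ℤ := 16 ^ (k - a1) with hn
  rcases F.eq_empty_or_nonempty with h | ⟨w0, hw0⟩
  · rw [h]
    simp only [Finset.card_empty, Nat.cast_zero]
    positivity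
  · have hsub : F ⊆ Finset.Ico (F.min' ⟨w0, hw0⟩) (F.min' ⟨w0, hw0⟩ + 2 * A * n) := by
      intro w hw
      have hm := F.min'_mem ⟨w0, hw0⟩
      set v := F.min' ⟨w0, hw0⟩ with hv
      rw [Finset.mem_Ico]
      refine ⟨F.min'_le w hw, ?_⟩
      rw [hF, Finset.mem_filter] at hw hm
      have h2 := abs_lt.1 hw.2
      have h3 := abs_lt.1 hm.2
      rw [hkk] at h2 h3
      have h4 : (w - v) * 16 ^ a1 < 2 * A * n * 16 ^ a1 := by
        have : A * (16 ^ a1 * n) = A * n * 16 ^ a1 := by ring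
        rw [this] at h2 h3
        nlinarith
      have h5 := lt_of_mul_lt_mul_right h4 h16.le
      omega
    have hc := Finset.card_le_card hsub
    rw [Int.card_Ico] at hc
    have h6 : (0 : ℤ) ≤ 2 * A * n := by positivity
    have h7 : ((F.min' ⟨w0, hw0⟩ + 2 * A * n - F.min' ⟨w0, hw0⟩).toNat : ℤ) = 2 * A * n := by
      rw [Int.toNat_of_nonneg (by omega)]
      ring
    have h8 : (F.card : ℤ) ≤ 2 * A * n := by
      rw [← h7]
      exact_mod_cast hc
    have h9 : (0 : ℤ) ≤ A * n := by positivity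
    linarith

theorem pf_CNT : T_CNT := by
  classical
  intro hL q A j a1 k o e W hA hk
  have hm : ∀ w ∈ W, MeasurableSet {ω : Env |
      |Lam ω o e (zc j a1 w).1 - (zc j a1 w).2| < A * 16 ^ k} := by
    intro w _
    have h1 : Measurable fun ω : Env => Lam ω o e (zc j a1 w).1 := (hL o e _).2.1
    exact h1 (MeasurableSet.of_discrete (s := {y : ℤ | |y - (zc j a1 w).2| < A * 16 ^ k}))
  calc ∑ w ∈ W, PE q {ω | |Lam ω o e (zc j a1 w).1 - (zc j a1 w).2| < A * 16 ^ k}
      = ∑ w ∈ W, ∫⁻ ω, ({ω : Env | |Lam ω o e (zc j a1 w).1 - (zc j a1 w).2| <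
          A * 16 ^ k}).indicator 1 ω ∂(PE q) := by
        refine Finset.sum_congr rfl fun w hw => ?_
        rw [lintegral_indicator_one (hm w hw)]
    _ = ∫⁻ ω, ∑ w ∈ W, ({ω : Env | |Lam ω o e (zc j a1 w).1 - (zc j a1 w).2| <
          A * 16 ^ k}).indicator 1 ω ∂(PE q) := by
        rw [lintegral_finsetSum _ fun w hw => (measurable_one.indicator (hm w hw))]
    _ ≤ ∫⁻ _, ENNReal.ofReal (3 * A * 16 ^ (k - a1)) ∂(PE q) := by
        refine lintegral_mono fun ω => ?_
        have e1 : ∑ w ∈ W, ({ω : Env | |Lam ω o e (zc j a1 w).1 - (zc j a1 w).2| <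
            A * 16 ^ k}).indicator (1 : Env → ℝ≥0∞) ω =
            ((W.filter (fun w => |Lam ω o e j - (w * 16 ^ a1 + j % 2)| < A * 16 ^ k)).card :
              ℝ≥0∞) := by
          rw [Finset.card_filter]
          push_cast
          refine Finset.sum_congr rfl fun w _ => ?_
          by_cases h : |Lam ω o e j - (w * 16 ^ a1 + j % 2)| < A * 16 ^ k
          · have hmem : ω ∈ {ω : Env | |Lam ω o e (zc j a1 w).1 - (zc j a1 w).2| < A * 16 ^ k} := h
            rw [Set.indicator_of_mem hmem, if_pos h, Pi.one_apply]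
          · have hmem : ω ∉ {ω : Env | |Lam ω o e (zc j a1 w).1 - (zc j a1 w).2| < A * 16 ^ k} := h
            rw [Set.indicator_of_notMem hmem, if_neg h]
        rw [e1]
        have h2 := count_win W (Lam ω o e j) (j % 2) A a1 k hA hk
        have h3 : (((W.filter (fun w => |Lam ω o e j - (w * 16 ^ a1 + j % 2)| <
            A * 16 ^ k)).card : ℕ) : ℝ) ≤ 3 * A * 16 ^ (k - a1) := by
          exact_mod_cast h2
        rw [← ENNReal.ofReal_natCast]
        exact ENNReal.ofReal_le_ofReal h3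
    _ = ENNReal.ofReal (3 * A * 16 ^ (k - a1)) := by
        rw [lintegral_const, measure_univ, mul_one]

theorem pf_GPR : T_GPR := by
  classical
  intro hL c k o e z p hoe
  have hr : Reach (o - z) (e - z) := by
    rw [← reach_shift z, sub_add_cancel, sub_add_cancel]
    exact hoe
  set D := dk c 0 k with hD
  set S : Set Env := {ω | |Lam ω (o - z) (e - z) 0| < c.A * 16 ^ k} with hS
  have hSm : MeasurableSet S := by
    have h1 : Measurable fun ω : Env => Lam ω (o - z) (e - z) 0 := (hL _ _ _).2.1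
    exact h1 (MeasurableSet.of_discrete (s := {y : ℤ | |y| < c.A * 16 ^ k}))
  have hq : D.q = c.q := rfl
  let φ : Env × Env → Env := fun x => splice (Bx D) x.2 (shiftE z x.1)
  have hφ : Measurable φ :=
    (measurable_splice (Bx D)).comp
      (measurable_snd.prodMk ((mp_shiftE c.q z).measurable.comp measurable_fst))
  have hPin : ∀ out, Pin D (shiftE z out) (fun ω => |Lam ω (o - z) (e - z) 0| < c.A * 16 ^ k) =
      PE c.q (Prod.mk out ⁻¹' (φ ⁻¹' S)) := fun out => rfl
  have hmeas : Measurable fun out => PE c.q (Prod.mk out ⁻¹' (φ ⁻¹' S)) :=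
    measurable_measure_prodMk_left (hφ hSm)
  refine ⟨?_, ?_, ?_⟩
  · exact measurableSet_le measurable_const hmeas
  · intro ω ω' h
    have h1 : ∀ ω₂, splice (Bx D) ω₂ (shiftE z ω) = splice (Bx D) ω₂ (shiftE z ω') := by
      intro ω₂
      funext x
      by_cases hx : x ∈ Bx D
      · rw [splice_of_mem _ _ hx, splice_of_mem _ _ hx]
      · rw [splice_of_not_mem _ _ hx, splice_of_not_mem _ _ hx]
        refine h (x + z) ?_
        intro hx'
        apply hx
        have : x + z - z ∈ Bx D := hx'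
        rwa [add_sub_cancel_right] at this
    have h2 : Pin D (shiftE z ω) (fun ω => |Lam ω (o - z) (e - z) 0| < c.A * 16 ^ k) =
        Pin D (shiftE z ω') (fun ω => |Lam ω (o - z) (e - z) 0| < c.A * 16 ^ k) := by
      unfold Pin
      simp only [h1]
    have h3 : (ω ∈ Gp c k o e z p) = (p ≤ Pin D (shiftE z ω)
      (fun ω => |Lam ω (o - z) (e - z) 0| < c.A * 16 ^ k)) := rfl
    have h4 : (ω' ∈ Gp c k o e z p) = (p ≤ Pin D (shiftE z ω')
      (fun ω => |Lam ω (o - z) (e - z) 0| < c.A * 16 ^ k)) := rfl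
    change (ω ∈ Gp c k o e z p) = (ω' ∈ Gp c k o e z p)
    rw [h3, h4, h2]
  · have h1 : p * PE c.q (Gp c k o e z p) ≤ ∫⁻ out, PE c.q (Prod.mk out ⁻¹' (φ ⁻¹' S)) ∂(PE c.q) :=
      mul_meas_ge_le_lintegral hmeas p
    refine h1.trans (le_of_eq ?_)
    rw [← Measure.prod_apply (hφ hSm)]
    -- law of φ
    have h2 : MeasurePreserving (fun x : Env × Env => splice (Bx D) x.1 x.2)
        ((PE c.q).prod (PE c.q)) (PE c.q) := mp_splice c.q (Bx D)
    have h3 : MeasurePreserving (Prod.map (id : Env → Env) (shiftE z))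
        ((PE c.q).prod (PE c.q)) ((PE c.q).prod (PE c.q)) :=
      (MeasurePreserving.id _).prod (mp_shiftE c.q z)
    have h4 : MeasurePreserving (Prod.swap : Env × Env → Env × Env)
        ((PE c.q).prod (PE c.q)) ((PE c.q).prod (PE c.q)) :=
      Measure.measurePreserving_swap
    have h5 : MeasurePreserving φ ((PE c.q).prod (PE c.q)) (PE c.q) := (h2.comp h3).comp h4
    rw [h5.measure_preimage hSm.nullMeasurableSet]
    have h6 := (mp_shiftE c.q z).measure_preimage hSm.nullMeasurableSet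
    rw [← h6]
    congr 1
    ext ω
    simp only [hS, Set.mem_preimage, Set.mem_ofPred_eq]
    have h7 := (hL (o - z) (e - z) 0).2.2 z ω hr
    rw [sub_add_cancel, sub_add_cancel, zero_add] at h7
    have h8 : Lam (shiftE z ω) (o - z) (e - z) 0 = Lam ω o e z.1 - z.2 := by linarith
    rw [h8]

end Pool.Agent.H95.PD
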