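import Pool.Agent.H95.ND.Targets

/-!
# MP_57ddd5_pr: modules JC2, JC, CHB
-/

open MeasureTheory ProbabilityTheory
open scoped ENNReal

namespace Pool.Agent.H95.PD

open Pool.Agent.H99.NS Pool.Agent.H22.LPP Pool.Agent.H95.INS Pool.Agent.H76.ND
open Pool.Agent.H95.ND
open Pool.Agent.H97.NF (PEnv eA eB PN)

theorem pf_JC2 (h1 : T_CHN) (h2 : T_FCI) (h4 : T_PAT) (h5 : T_SMF) : T_JC2 := by
  classical
  intro q hq0 hq1 hN δ hδ0 hδ1
  obtain ⟨K00, hK1, hK⟩ := h1 q hq0 hq1 hN (δ ^ 2 / 4) (by positivity) (by nlinarith)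
  refine ⟨K00, hK1, ?_⟩
  intro C₀ c k₀ p₀ hPK hKc Xc a I b S hXc hSml hk₀ ha hab hS
  have hq := hPK.hq
  have hA := hPK.A1
  have h16 : 16 ≤ Xc := by omega
  have hpat := h4 Env (PE q) S (fun j => {ω | ¬ GN q c.K0 Xc a I j ω})
    (fun j => {ω | ¬ FC (dk c Xc j) ω}) (δ ^ 2 / 4) (by positivity) (by nlinarith)
    (fun S' hS' => hK c.K0 Xc a I S' hKc h16 hSml ha (fun j hj => hab.trans (hS j (hS' hj))))
    (fun S' hS' => by
      have := h2 c Xc S' (δ ^ 2 / 4) (by positivity) (by omega)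
        (fun k hk => by have := hS k (hS' hk); omega)
        (fun k hk => by
          have hkb := hS k (hS' hk)
          rw [hq]
          refine hPK.fc Xc k (by omega) hXc ?_
          exact (h5 Xc c.A a k h16 (by omega) hXc hSml (by omega)).2.2.1)
      rw [hq] at this
      exact this)
  have hs : 2 * √(δ ^ 2 / 4) = δ := by
    have e : δ ^ 2 / 4 = (δ / 2) ^ 2 := by ring
    rw [e, Real.sqrt_sq (by positivity)]
    ring
  rw [hs] at hpat
  refine (measure_mono ?_).trans hpat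
  intro ω hω j hj
  have := hω j hj
  unfold good at this
  rw [hq] at this
  by_cases hG : GN q c.K0 Xc a I j ω
  · right
    exact fun hF => this ⟨hG, hF⟩
  · left
    exact hG

theorem mp_outer {Ω Ω' : Type*} [MeasurableSpace Ω] [MeasurableSpace Ω'] {μ : Measure Ω}
    {ν : Measure Ω'} {f : Ω → Ω'} (hf : MeasurePreserving f μ ν) (S : Set Ω') :
    μ (f ⁻¹' S) ≤ ν S := by
  have h1 := Measure.le_map_apply (μ := μ) hf.measurable.aemeasurable S
  rwa [hf.map_eq] at h1

theorem pf_JC (h1 : T_JC1) (h2 : T_JC2) (h3 : T_JM) : T_JC := by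
  classical
  intro q hq0 hq1 hV hN m M hm hM
  set δ : ℝ := (Real.exp (-M) / 2) ^ m with hδ
  have he : Real.exp (-M) ≤ 1 := by rw [Real.exp_le_one_iff]; linarith
  have hδ0 : 0 < δ := by positivity
  have hδ1 : δ ≤ 1 := pow_le_one₀ (by positivity) (by linarith)
  obtain ⟨Ka, hKa1, hKa⟩ := h1 q hq0 hq1 hV δ hδ0 hδ1
  obtain ⟨Kb, hKb1, hKb⟩ := h2 q hq0 hq1 hN δ hδ0 hδ1
  refine ⟨δ, max Ka Kb, hδ0, hδ1, hKa1.trans (le_max_left _ _), ?_⟩
  intro C₀ c k₀ p₀ hPK hKc Ω _ μ _ X hX Xc a I b k hXc hSml hk₀ ha hab hbk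
  have hq := hPK.hq
  rw [hq] at hX
  have hcard : ((Finset.Ico b k).card : ℝ) = (k : ℝ) - b := by
    rw [Nat.card_Ico, Nat.cast_sub hbk]
  constructor
  · intro hkI out
    have := h3 Ω μ m {ω | ∀ l, good c Xc a I k (splice (Bx (dk c Xc k)) (X l ω) (out l))}
      (fun l j => {ω | ¬ good c Xc a I j (splice (Bx (dk c Xc k)) (X l ω) (out l))})
      (Finset.Ico b k) M hm hM (fun l S' hS' => by
        refine (measure_mono ?_).trans ((mp_outer (hX l) {ω |
          good c Xc a I k (splice (Bx (dk c Xc k)) ω (out l)) ∧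
          ∀ j ∈ S', ¬ good c Xc a I j (splice (Bx (dk c Xc k)) ω (out l))}).trans
          (hKa C₀ c k₀ p₀ hPK ((le_max_left _ _).trans hKc) Xc a I b k S' hXc hSml hk₀ ha hab
            hkI (fun j hj => Finset.mem_Ico.1 (hS' hj)) (out l)))
        rintro ω ⟨hG, hω⟩
        exact ⟨hG l, hω⟩)
    rw [hcard] at this
    refine (measure_mono ?_).trans this
    rintro ω ⟨hG, hω⟩
    refine ⟨hG, fun j hj => ?_⟩
    rw [Finset.mem_Ico] at hj
    exact hω j hj.1 hj.2
  · have := h3 Ω μ m Set.univ (fun l j => {ω | ¬ good c Xc a I j (X l ω)})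
      (Finset.Ico b k) M hm hM (fun l S' hS' => by
        refine (measure_mono ?_).trans ((mp_outer (hX l) {ω |
          ∀ j ∈ S', ¬ good c Xc a I j ω}).trans
          (hKb C₀ c k₀ p₀ hPK ((le_max_right _ _).trans hKc) Xc a I b S' hXc hSml hk₀ ha hab
            (fun j hj => (Finset.mem_Ico.1 (hS' hj)).1)))
        rintro ω ⟨-, hω⟩
        exact hω)
    rw [hcard] at this
    refine (measure_mono ?_).trans this
    intro ω hω
    refine ⟨Set.mem_univ _, fun j hj => ?_⟩
    rw [Finset.mem_Ico] at hj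
    exact hω j hj.1 hj.2

theorem shift_gl2_A (D : Dat) (z : Site) (E : PEnv) (out : Env) :
    shiftE z (eA (gl2 (BxAt D z) E out)) = splice (Bx D) (shiftE z (eA E)) (shiftE z out) := by
  classical
  funext x
  have h : (x + z ∈ BxAt D z) = (x ∈ Bx D) := by
    unfold BxAt
    simp
  unfold shiftE eA gl2 splice
  simp only [h]
  split_ifs <;> rfl

theorem shift_gl2_B (D : Dat) (z : Site) (E : PEnv) (out : Env) :
    shiftE z (eB (gl2 (BxAt D z) E out)) = splice (Bx D) (shiftE z (eB E)) (shiftE z out) := by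
  classical
  funext x
  have h : (x + z ∈ BxAt D z) = (x ∈ Bx D) := by
    unfold BxAt
    simp
  unfold shiftE eB gl2 splice
  simp only [h]
  split_ifs <;> rfl

theorem pf_CHB (h1 : T_XFA) : T_CHB := by
  classical
  intro q δ C₀ M c k₀ p₀ hq0 hq1 hPK hJC
  have hq := hPK.hq
  obtain ⟨K₁, hK₁⟩ := h1 (16 * c.A)
  refine ⟨max K₁ (40 * k₀), ?_⟩
  intro K a b k z ρ hK hKa hab hbk hkK
  obtain ⟨hXf, hSml, -, ha, -⟩ := hK₁ K a (by omega) hKa
  have hk₀ : k₀ ≤ a := by omega
  let X : Fin 2 → PEnv → Env := ![fun E => shiftE z (eA E), fun E => shiftE z (eB E)]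
  have hX : ∀ l, MeasurePreserving (X l) (PN q ρ) (PE c.q) := by
    intro l
    rw [hq]
    fin_cases l
    · exact (mp_shiftE q z).comp (Pool.Agent.H97.NF.mp_eA q ρ)
    · exact (mp_shiftE q z).comp (Pool.Agent.H97.NF.mp_eB q ρ)
  obtain ⟨hA, hB⟩ := hJC PEnv (PN q ρ) X hX (Xf K) a (K - 2) b k hXf hSml hk₀ ha hab hbk
  constructor
  · intro out
    refine (measure_mono ?_).trans (hA (by omega) (fun _ => shiftE z out))
    rintro E ⟨⟨g1, g2⟩, g3⟩
    unfold goodAt at g1 g2
    rw [shift_gl2_A] at g1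
    rw [shift_gl2_B] at g2
    constructor
    · intro l
      fin_cases l
      · exact g1
      · exact g2
    · intro j hj1 hj2
      have := g3 j hj1 hj2
      unfold goodAt at this
      rw [shift_gl2_A, shift_gl2_B] at this
      by_contra hc
      push Not at hc
      exact this ⟨hc 0, hc 1⟩
  · refine (measure_mono ?_).trans hB
    intro E hE j hj1 hj2
    have := hE j hj1 hj2
    unfold goodAt at this
    by_contra hc
    push Not at hc
    exact this ⟨hc 0, hc 1⟩

end Pool.Agent.H95.PD
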