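import Pool.Agent.H95.ND.Targets

/-!
# MP_57ddd5_pr: modules JM, PAT, CHB, JC
-/

open MeasureTheory ProbabilityTheory
open scoped ENNReal

namespace Pool.Agent.H95.PD

open Pool.Agent.H99.NS Pool.Agent.H22.LPP Pool.Agent.H95.INS Pool.Agent.H76.ND
open Pool.Agent.H95.ND
open Pool.Agent.H97.NF (PEnv eA eB PN)

theorem pf_JM : T_JM := by
  classical
  intro Ω _ μ m G Bd S M hm hM h
  set y : ℝ := Real.exp (-M) / 2 with hy
  have hy0 : 0 < y := by positivity
  have hy1 : y ≤ 1 := by
    have : Real.exp (-M) ≤ 1 := by rw [Real.exp_le_one_iff]; linarith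
    rw [hy]; linarith
  let F : Finset (Fin m × Finset ℕ) :=
    (Finset.univ ×ˢ S.powerset).filter (fun x => S.card ≤ m * x.2.card)
  have hsub : {ω | ω ∈ G ∧ ∀ j ∈ S, ∃ l, ω ∈ Bd l j} ⊆
      ⋃ x ∈ F, {ω | ω ∈ G ∧ ∀ j ∈ x.2, ω ∈ Bd x.1 j} := by
    rintro ω ⟨hG, hω⟩
    let Sl : Fin m → Finset ℕ := fun l => S.filter (fun j => ω ∈ Bd l j)
    have h1 : S = Finset.univ.biUnion Sl := by
      ext j
      simp only [Finset.mem_biUnion, Finset.mem_univ, true_and, Sl, Finset.mem_filter]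
      exact ⟨fun hj => (hω j hj).imp fun l hl => ⟨hj, hl⟩, fun ⟨l, hj, _⟩ => hj⟩
    have h2 : ∃ l, S.card ≤ m * (Sl l).card := by
      by_contra hc
      push Not at hc
      have h3 : S.card ≤ ∑ l, (Sl l).card := by
        conv_lhs => rw [h1]
        exact Finset.card_biUnion_le
      have h4 : m * S.card ≤ ∑ l : Fin m, m * (Sl l).card := by
        rw [← Finset.mul_sum]
        exact Nat.mul_le_mul_left _ h3
      have h5 : ∑ l : Fin m, m * (Sl l).card < ∑ _l : Fin m, S.card :=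
        Finset.sum_lt_sum_of_nonempty ⟨⟨0, hm⟩, Finset.mem_univ _⟩ fun l _ => hc l
      rw [Finset.sum_const, Finset.card_univ, Fintype.card_fin, smul_eq_mul] at h5
      omega
    obtain ⟨l, hl⟩ := h2
    simp only [Set.mem_iUnion]
    refine ⟨(l, Sl l), ?_, hG, ?_⟩
    · simp only [F, Finset.mem_filter, Finset.mem_product, Finset.mem_univ, true_and,
        Finset.mem_powerset]
      exact ⟨Finset.filter_subset _ _, hl⟩
    · intro j hj
      exact (Finset.mem_filter.1 hj).2
  refine (measure_mono hsub).trans ((measure_biUnion_finset_le _ _).trans ?_)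
  have hb : ∀ x ∈ F, μ {ω | ω ∈ G ∧ ∀ j ∈ x.2, ω ∈ Bd x.1 j} ≤ ENNReal.ofReal (y ^ S.card) := by
    intro x hx
    simp only [F, Finset.mem_filter, Finset.mem_product, Finset.mem_univ, true_and,
        Finset.mem_powerset] at hx
    refine (h x.1 x.2 hx.1).trans (ENNReal.ofReal_le_ofReal ?_)
    rw [← pow_mul]
    exact pow_le_pow_of_le_one hy0.le hy1 hx.2
  refine (Finset.sum_le_sum hb).trans ?_
  rw [Finset.sum_const, nsmul_eq_mul, ← ENNReal.ofReal_natCast,
    ← ENNReal.ofReal_mul (by positivity)]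
  apply ENNReal.ofReal_le_ofReal
  have hcard : (F.card : ℝ) ≤ m * 2 ^ S.card := by
    have : F.card ≤ m * 2 ^ S.card := by
      refine (Finset.card_filter_le _ _).trans ?_
      rw [Finset.card_product, Finset.card_univ, Fintype.card_fin, Finset.card_powerset]
    exact_mod_cast this
  calc (F.card : ℝ) * y ^ S.card ≤ m * 2 ^ S.card * y ^ S.card :=
        mul_le_mul_of_nonneg_right hcard (by positivity)
    _ = m * (2 * y) ^ S.card := by rw [mul_pow]; ring
    _ = m * Real.exp (-(M * S.card)) := by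
        have e : 2 * y = Real.exp (-M) := by rw [hy]; ring
        rw [e, ← Real.exp_nat_mul]
        congr 2
        ring

theorem pf_PAT : T_PAT := by
  classical
  intro Ω _ μ S A B x hx0 hx1 hA hB
  have hs0 : 0 ≤ √x := Real.sqrt_nonneg x
  have hs1 : √x ≤ 1 := by rw [← Real.sqrt_one]; exact Real.sqrt_le_sqrt hx1
  have hsq : √x ^ 2 = x := Real.sq_sqrt hx0
  have hsub : {ω | ∀ j ∈ S, ω ∈ A j ∨ ω ∈ B j} ⊆
      ⋃ S1 ∈ S.powerset, {ω | (∀ j ∈ S1, ω ∈ A j) ∧ ∀ j ∈ S \ S1, ω ∈ B j} := by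
    intro ω hω
    simp only [Set.mem_iUnion]
    refine ⟨S.filter (fun j => ω ∈ A j), Finset.mem_powerset.2 (Finset.filter_subset _ _), ?_, ?_⟩
    · intro j hj
      exact (Finset.mem_filter.1 hj).2
    · intro j hj
      rw [Finset.mem_sdiff, Finset.mem_filter] at hj
      rcases hω j hj.1 with h | h
      · exact absurd ⟨hj.1, h⟩ hj.2
      · exact h
  refine (measure_mono hsub).trans ((measure_biUnion_finset_le _ _).trans ?_)
  have hb : ∀ S1 ∈ S.powerset, μ {ω | (∀ j ∈ S1, ω ∈ A j) ∧ ∀ j ∈ S \ S1, ω ∈ B j} ≤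
      ENNReal.ofReal (√x ^ S.card) := by
    intro S1 hS1
    rw [Finset.mem_powerset] at hS1
    have hc : S1.card + (S \ S1).card = S.card := by
      rw [Finset.card_sdiff_of_subset hS1]
      have := Finset.card_le_card hS1
      omega
    by_cases h2 : S.card ≤ 2 * S1.card
    · refine (measure_mono fun ω hω => hω.1).trans ((hA S1 hS1).trans
        (ENNReal.ofReal_le_ofReal ?_))
      calc x ^ S1.card = √x ^ (2 * S1.card) := by rw [pow_mul, hsq]
        _ ≤ √x ^ S.card := pow_le_pow_of_le_one hs0 hs1 h2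
    · refine (measure_mono fun ω hω => hω.2).trans ((hB (S \ S1) Finset.sdiff_subset).trans
        (ENNReal.ofReal_le_ofReal ?_))
      calc x ^ (S \ S1).card = √x ^ (2 * (S \ S1).card) := by rw [pow_mul, hsq]
        _ ≤ √x ^ S.card := pow_le_pow_of_le_one hs0 hs1 (by omega)
  refine (Finset.sum_le_sum hb).trans ?_
  rw [Finset.sum_const, nsmul_eq_mul, ← ENNReal.ofReal_natCast,
    ← ENNReal.ofReal_mul (by positivity), Finset.card_powerset]
  apply ENNReal.ofReal_le_ofReal
  rw [mul_pow]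
  push_cast
  exact le_rfl

end Pool.Agent.H95.PD
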