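import Pool.Agent.H95.ND.Targets

/-!
# MP_57ddd5_pr: module PALM
-/

open MeasureTheory ProbabilityTheory
open scoped ENNReal

namespace Pool.Agent.H95.PD

open Pool.Agent.H99.NS Pool.Agent.H22.LPP Pool.Agent.H95.INS Pool.Agent.H76.ND
open Pool.Agent.H95.ND
open Pool.Agent.H97.NF (PEnv eA eB PN)

theorem exists_HT (K : ℕ) (g : ℤ → ℤ) : ∃ h, HT K g h := by
  classical
  have hex : ∃ h : ℕ, ∀ t, -lv K ≤ t → t ≤ lv K → 32 * |(g t : ℝ)| ≤ (8 / 3) ^ h * 16 ^ K := by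
    obtain ⟨h, hh⟩ := pow_unbounded_of_one_lt
      (∑ t ∈ Finset.Icc (-lv K) (lv K), 32 * |(g t : ℝ)|) (by norm_num : (1 : ℝ) < 8 / 3)
    refine ⟨h, fun t h1 h2 => ?_⟩
    have h3 : 32 * |(g t : ℝ)| ≤ ∑ t ∈ Finset.Icc (-lv K) (lv K), 32 * |(g t : ℝ)| :=
      Finset.single_le_sum (f := fun t => 32 * |(g t : ℝ)|) (fun i _ => by positivity)
        (Finset.mem_Icc.2 ⟨h1, h2⟩)
    have h4 : (1 : ℝ) ≤ 16 ^ K := one_le_pow₀ (by norm_num)
    have h5 : (0 : ℝ) ≤ (8 / 3) ^ h := by positivity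
    nlinarith
  refine ⟨Nat.find hex, Nat.find_spec hex, ?_⟩
  by_cases h0 : Nat.find hex = 0
  · exact Or.inl h0
  · right
    have h1 := Nat.find_min hex (m := Nat.find hex - 1) (by omega)
    push Not at h1
    exact h1

theorem bx_mono (c : Cst) (X X' : ℤ) {a1 k : ℕ} (h : a1 ≤ k) (hA : 0 ≤ c.A) (z : Site) :
    BxAt (dk c X a1) z ⊆ BxAt (dk c X' k) z := by
  intro x hx
  have h64 : (64 : ℤ) ^ (a1 - 1) ≤ 64 ^ (k - 1) := pow_le_pow_right₀ (by norm_num) (by omega)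
  have h16 : (16 : ℤ) ^ a1 ≤ 16 ^ k := pow_le_pow_right₀ (by norm_num) h
  obtain ⟨h1, h2, h3⟩ := hx
  simp only [dk, dat] at h1 h2 h3
  refine ⟨?_, ?_, ?_⟩
  · simp only [dk, dat]; linarith
  · simp only [dk, dat]; linarith
  · simp only [dk, dat]
    exact lt_of_lt_of_le h3 (mul_le_mul_of_nonneg_left h16 hA)

theorem geo_sum (m : ℕ) : ∑ i ∈ Finset.range (m + 1), (16 : ℝ) ^ i ≤ 2 * 16 ^ m := by
  induction m with
  | zero => simp
  | succ n ih =>
    rw [Finset.sum_range_succ, pow_succ]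
    have : (0 : ℝ) ≤ 16 ^ n := by positivity
    linarith

theorem half_sum (N : ℕ) : ∑ i ∈ Finset.range N, ((1 : ℝ) / 2) ^ i ≤ 2 := by
  have h : ∑ i ∈ Finset.range N, ((1 : ℝ) / 2) ^ i = 2 - 2 * (1 / 2) ^ N := by
    induction N with
    | zero => simp
    | succ n ih => rw [Finset.sum_range_succ, ih, pow_succ]; ring
  rw [h]
  have : (0 : ℝ) ≤ (1 / 2) ^ N := by positivity
  linarith

theorem sixteen_le : (16 : ℝ) ≤ Real.exp 3 := by
  have h := Real.exp_one_gt_d9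
  have h2 : Real.exp 3 = Real.exp 1 ^ 3 := by rw [← Real.exp_nat_mul]; norm_num
  rw [h2]
  have h3 : (2.7 : ℝ) ≤ Real.exp 1 := by linarith
  calc (16 : ℝ) ≤ 2.7 ^ 3 := by norm_num
    _ ≤ Real.exp 1 ^ 3 := pow_le_pow_left₀ (by norm_num) h3 3

theorem term_le (M : ℝ) (hM : 0 ≤ M) (m n : ℕ) (h : m ≤ n) :
    Real.exp (-((2 * M + 8) * n)) * 16 ^ n ≤ Real.exp (-(M * m)) * (1 / 2) ^ n := by
  have h1 : (16 : ℝ) ^ n ≤ Real.exp (3 * n) := by
    calc (16 : ℝ) ^ n ≤ Real.exp 3 ^ n := pow_le_pow_left₀ (by norm_num) sixteen_le n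
      _ = Real.exp (3 * n) := by rw [← Real.exp_nat_mul]; ring_nf
  have h2 : Real.exp (-(n : ℝ)) ≤ (1 / 2) ^ n := by
    have e : Real.exp (-(n : ℝ)) = Real.exp (-1) ^ n := by rw [← Real.exp_nat_mul]; ring_nf
    rw [e]
    refine pow_le_pow_left₀ (Real.exp_pos _).le ?_ n
    rw [Real.exp_neg, one_div]
    exact inv_anti₀ (by norm_num) (by have := Real.exp_one_gt_d9; linarith)
  calc Real.exp (-((2 * M + 8) * n)) * 16 ^ n
      ≤ Real.exp (-((2 * M + 8) * n)) * Real.exp (3 * n) :=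
        mul_le_mul_of_nonneg_left h1 (Real.exp_pos _).le
    _ = Real.exp (-((2 * M + 8) * n) + 3 * n) := by rw [← Real.exp_add]
    _ ≤ Real.exp (-(M * m) + -(n : ℝ)) := by
        apply Real.exp_le_exp.2
        have h3 : (m : ℝ) ≤ n := by exact_mod_cast h
        have h4 : 0 ≤ M * (n - m) := mul_nonneg hM (by linarith)
        have h5 : (0 : ℝ) ≤ n := by positivity
        have h6 : 0 ≤ M * n := mul_nonneg hM h5
        nlinarith
    _ = Real.exp (-(M * m)) * Real.exp (-(n : ℝ)) := Real.exp_add _ _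
    _ ≤ _ := mul_le_mul_of_nonneg_left h2 (Real.exp_pos _).le

theorem reach_oe (K : ℕ) : Reach (oK K) (eK K) := by
  have h : 0 ≤ lv K := by unfold lv; positivity
  refine ⟨?_, ?_⟩
  · simp only [oK, eK, sub_self, abs_zero]
    omega
  · exact ⟨lv K, by simp only [oK, eK]; ring⟩

theorem pf_PALM (h1 : T_XFA) (h2 : T_MEA) (h3 : T_GSM) (h4 : T_GDK) (h5 : T_CHB) (h6 : T_NGS)
    (h7 : T_TPB) (h8 : T_RFS) : T_PALM := by
  classical
  intro hLAM hLAMM q δ C₀ M c k₀ p₀ hq0 hq1 hM hGD hPK hJC hRG hTOP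
  have hq := hPK.hq
  subst hq
  obtain ⟨Ka, hKa⟩ := h1 0
  obtain ⟨Kb, hKb⟩ := h4 hLAM c.q δ C₀ c k₀ p₀ hq0 hq1 hGD hPK
  obtain ⟨Kc, hKc⟩ := h5 c.q δ C₀ (2 * M + 8) c k₀ p₀ hq0 hq1 hPK hJC
  obtain ⟨C5, hC5, Kd, hKd⟩ := h6 hLAM hLAMM c.q δ C₀ M c k₀ p₀ hq0 hq1 hM hPK hJC hTOP
  obtain ⟨C6, hC6, Ke, hKe⟩ := h7 hLAM hLAMM c.q M hq0 hq1 hM hTOP
  obtain ⟨C1, c1, hC1, hc1, Kf, hKf⟩ := h8 hLAM hLAMM c.q δ C₀ c k₀ p₀ hq0 hq1 hPK hRG
  have hA : (200 : ℤ) ≤ c.A := hPK.A1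
  have hA' : (0 : ℝ) < c.A := by
    have : (200 : ℝ) ≤ c.A := by exact_mod_cast hA
    linarith
  have hp0 := hPK.p0
  have hptop : p₀ ≠ ∞ := ne_top_of_le_ne_top ENNReal.one_ne_top hPK.p1
  set p : ℝ := p₀.toReal with hp
  have hppos : 0 < p := ENNReal.toReal_pos hp0.ne' hptop
  have hpof : p₀ = ENNReal.ofReal p := (ENNReal.ofReal_toReal hptop).symm
  have hdiv : ∀ x : ℝ, ENNReal.ofReal x / p₀ = ENNReal.ofReal (x / p) := fun x => by
    rw [hpof, ENNReal.ofReal_div_of_pos hppos]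
  refine ⟨12 * c.A / p + C1 + C5 + C6, c1, by positivity, hc1,
    max (max (max Ka Kb) (max Kc Kd)) (max Ke Kf), ?_⟩
  intro K a a1 m hK hKa' ha1 hm j hj ρ Bad β hβ hBadm hρ hb W
  have hKKa : Ka ≤ K := by omega
  have hKKb : Kb ≤ K := by omega
  have hKKc : Kc ≤ K := by omega
  have hKKd : Kd ≤ K := by omega
  have hKKe : Ke ≤ K := by omega
  have hKKf : Kf ≤ K := by omega
  obtain ⟨-, -, -, ha, -⟩ := hKa K a hKKa hKa'
  set o := oK K with ho
  set e := eK K with he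
  let L : PEnv → ℤ → ℤ := fun E => Lam (eA E) o e
  let gb : ℤ → ℕ → PEnv → Prop := fun w k E =>
    goodAt c (Xf K) a (K - 2) k (zc j a1 w) (eA E) ∧ goodAt c (Xf K) a (K - 2) k (zc j a1 w) (eB E)
  let S1 : ℤ → Set PEnv := fun w => {E | Lam (eA E) o e j ∈ win a1 w ∧
    (¬ RGG (Xf K) a (-lv K) (lv K) (Lam (eA E) o e) ∨
      ∃ k, a1 ≤ k ∧ k + 2 ≤ K ∧ ¬ RF (dk c (Xf K) k) (shiftE (zc j a1 w) (eA E))
        (o - zc j a1 w) (e - zc j a1 w))}
  let EvA : ℕ → ℤ → Set PEnv := fun k w => {E | E ∈ Bad w ∧ gb w k E}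
  let EvB : ℕ → ℤ → Set PEnv := fun k w => {E : PEnv | gb w k E ∧
    ∀ j', a1 ≤ j' → j' < k → ¬ gb w j' E}
  let S3 : ℕ → ℤ → Set PEnv := fun k w => {E | eA E ∈ Gp c k o e (zc j a1 w) p₀ ∧ E ∈ EvA k w}
  let S4 : ℕ → ℤ → Set PEnv := fun k w => {E | eA E ∈ Gp c k o e (zc j a1 w) p₀ ∧ E ∈ EvB k w}
  let S5 : ℤ → Set PEnv := fun w => {E | Lam (eA E) o e j ∈ win a1 w ∧
    ∃ h : ℕ, a1 + m + h + 2 ≤ K ∧ HT K (Lam (eA E) o e) h ∧
      ∀ k, a1 ≤ k → k + h + 2 ≤ K → ¬ gb w k E}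
  let S6 : ℤ → Set PEnv := fun w => {E | Lam (eA E) o e j ∈ win a1 w ∧
    ∃ h : ℕ, K < a1 + m + h + 2 ∧ HT K (Lam (eA E) o e) h}
  let I3 : Finset ℕ := Finset.Icc a1 (a1 + m)
  let I4 : Finset ℕ := Finset.Ioc (a1 + m) (K - 2)
  -- the decomposition
  have hdec : ∀ w, {E | Lam (eA E) o e j ∈ win a1 w ∧ E ∈ Bad w} ⊆
      S1 w ∪ ((⋃ k ∈ I3, S3 k w) ∪ ((⋃ k ∈ I4, S4 k w) ∪ (S5 w ∪ S6 w))) := by
    rintro w E ⟨hEw, hEB⟩
    by_cases hS1 : E ∈ S1 w
    · exact Or.inl hS1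
    right
    have hR : RGG (Xf K) a (-lv K) (lv K) (Lam (eA E) o e) ∧
        ∀ k, a1 ≤ k → k + 2 ≤ K → RF (dk c (Xf K) k) (shiftE (zc j a1 w) (eA E))
        (o - zc j a1 w) (e - zc j a1 w) := by
      constructor
      · by_contra hc
        exact hS1 ⟨hEw, Or.inl hc⟩
      · intro k hk1 hk2
        by_contra hc
        exact hS1 ⟨hEw, Or.inr ⟨k, hk1, hk2, hc⟩⟩
    obtain ⟨h, hh⟩ := exists_HT K (Lam (eA E) o e)
    by_cases hcase : K < a1 + m + h + 2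
    · exact Or.inr (Or.inr (Or.inr ⟨hEw, h, hcase, hh⟩))
    push Not at hcase
    by_cases hex : ∃ k, a1 ≤ k ∧ k + h + 2 ≤ K ∧ gb w k E
    · obtain ⟨hk1, hk2, hk3⟩ := Nat.find_spec hex
      set k := Nat.find hex with hkdef
      have hmin : ∀ j', a1 ≤ j' → j' < k → ¬ gb w j' E := by
        intro j' hj1 hj2 hj3
        exact Nat.find_min hex (m := j') hj2 ⟨hj1, by omega, hj3⟩
      have hG : eA E ∈ Gp c k o e (zc j a1 w) p₀ := by
        refine hKb K a a1 k w j (eA E) ((8 / 3) ^ h / 32) hKKb hKa' ha1 hk1 (by omega) hj hEw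
          hk3.1 (hR.2 k hk1 (by omega)) hR.1 ?_ ?_
        · intro t ht1 ht2
          have := hh.1 t ht1 ht2
          linarith
        · have e1 : (32 : ℝ) * ((8 / 3) ^ h / 32) = (8 / 3) ^ h := by ring
          rw [e1]
          obtain ⟨n, hn⟩ : ∃ n, K - 2 - k = h + n := ⟨K - 2 - k - h, by omega⟩
          rw [hn, pow_add]
          have e2 : ((3 : ℝ) / 8) ^ h * (8 / 3) ^ h = 1 := by
            rw [← mul_pow]; norm_num
          have e3 : ((3 : ℝ) / 8) ^ n ≤ 1 := pow_le_one₀ (by norm_num) (by norm_num)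
          calc ((3 : ℝ) / 8) ^ h * (3 / 8) ^ n * (8 / 3) ^ h
              = ((3 : ℝ) / 8) ^ h * (8 / 3) ^ h * (3 / 8) ^ n := by ring
            _ ≤ 1 := by rw [e2, one_mul]; exact e3
      by_cases hkm : k ≤ a1 + m
      · refine Or.inl ?_
        simp only [Set.mem_iUnion]
        exact ⟨k, Finset.mem_Icc.2 ⟨hk1, hkm⟩, hG, hEB, hk3⟩
      · refine Or.inr (Or.inl ?_)
        simp only [Set.mem_iUnion]
        exact ⟨k, Finset.mem_Ioc.2 ⟨by omega, by omega⟩, hG, hk3, hmin⟩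
    · push Not at hex
      exact Or.inr (Or.inr (Or.inl ⟨hEw, h, hcase, hh, fun k hk1 hk2 => hex k hk1 hk2⟩))
  have hstep : ∀ w, PN c.q (ρ w) {E | Lam (eA E) o e j ∈ win a1 w ∧ E ∈ Bad w} ≤
      PN c.q (ρ w) (S1 w) + (∑ k ∈ I3, PN c.q (ρ w) (S3 k w) +
        (∑ k ∈ I4, PN c.q (ρ w) (S4 k w) + (PN c.q (ρ w) (S5 w) + PN c.q (ρ w) (S6 w)))) := by
    intro w
    refine (measure_mono (hdec w)).trans ((measure_union_le _ _).trans (add_le_add le_rfl ?_))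
    refine (measure_union_le _ _).trans (add_le_add (measure_biUnion_finset_le _ _) ?_)
    refine (measure_union_le _ _).trans (add_le_add (measure_biUnion_finset_le _ _) ?_)
    exact measure_union_le _ _
  -- the five sums
  have hs1 : ∑ w ∈ W, PN c.q (ρ w) (S1 w) ≤ ENNReal.ofReal (C1 * Real.exp (-Real.exp (c1 * K))) :=
    hKf K a a1 j hKKf hKa' ha1 (by omega) hj ρ W
  have hs5 : ∑ w ∈ W, PN c.q (ρ w) (S5 w) ≤ ENNReal.ofReal (C5 * Real.exp (-(M * m))) :=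
    hKd K a a1 m hKKd hKa' ha1 hm j hj ρ W
  have hs6 : ∑ w ∈ W, PN c.q (ρ w) (S6 w) ≤ ENNReal.ofReal (C6 * Real.exp (-(M * m))) :=
    hKe K a1 m hKKe hm j ρ W
  have hmeas : ∀ w k, 1 ≤ k → MeasurableSet {E | gb w k E} := by
    intro w k hk
    have m1 := h2 c (Xf K) a (K - 2) k (zc j a1 w) ha hk
    exact (Pool.Agent.H97.NF.measurable_eA m1).inter (Pool.Agent.H97.NF.measurable_eB m1)
  have hρ' : ∀ k, a1 ≤ k → ∀ w x, x ∉ BxAt (dk c 0 k) (zc j a1 w) → ρ w x = 0 := by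
    intro k hk w x hx
    refine hρ w x fun hx' => hx ?_
    exact bx_mono c _ _ hk (by omega) _ hx'
  have hs3 : ∀ k ∈ I3, ∑ w ∈ W, PN c.q (ρ w) (S3 k w) ≤
      ENNReal.ofReal (3 * c.A / p * β * 16 ^ (k - a1)) := by
    intro k hk
    rw [Finset.mem_Icc] at hk
    have := h3 hLAMM c a1 k o e j p₀ (ENNReal.ofReal β) ρ (EvA k) W hp0 hptop (by omega) hk.1
      (reach_oe K) (hρ' k hk.1) (fun w => (hBadm w).inter (hmeas w k (by omega)))
      (fun w out => hb w k hk.1 hk.2 out)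
    refine this.trans (le_of_eq ?_)
    rw [hdiv, ← ENNReal.ofReal_mul hβ]
    congr 1
    ring
  have hs4 : ∀ k ∈ I4, ∑ w ∈ W, PN c.q (ρ w) (S4 k w) ≤
      ENNReal.ofReal (6 * c.A / p * Real.exp (-(M * m)) * (1 / 2) ^ (k - a1)) := by
    intro k hk
    rw [Finset.mem_Ioc] at hk
    have hk1 : a1 ≤ k := by omega
    have hmB : ∀ w, MeasurableSet (EvB k w) := by
      intro w
      have e1 : EvB k w = {E | gb w k E} ∩ ⋂ j' ∈ Finset.Ico a1 k, {E | gb w j' E}ᶜ := by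
        ext E
        simp only [EvB, Set.mem_ofPred_eq, Set.mem_inter_iff, Set.mem_iInter, Finset.mem_Ico,
          Set.mem_compl_iff, and_imp]
      rw [e1]
      refine (hmeas w k (by omega)).inter (Finset.measurableSet_biInter _ fun j' hj' => ?_)
      rw [Finset.mem_Ico] at hj'
      exact (hmeas w j' (by omega)).compl
    have := h3 hLAMM c a1 k o e j p₀
      (ENNReal.ofReal (2 * Real.exp (-((2 * M + 8) * (k - a1))))) ρ (EvB k) W hp0 hptop
      (by omega) hk1 (reach_oe K) (hρ' k hk1) hmB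
      (fun w out => (hKc K a a1 k (zc j a1 w) (ρ w) hKKc hKa' ha1 hk1 (by omega)).1 out)
    refine this.trans ?_
    rw [hdiv, ← ENNReal.ofReal_mul (by positivity)]
    apply ENNReal.ofReal_le_ofReal
    have ht := term_le M hM m (k - a1) (by omega)
    rw [Nat.cast_sub hk1] at ht
    have e1 : 2 * Real.exp (-((2 * M + 8) * ((k : ℝ) - a1))) * (3 * c.A * 16 ^ (k - a1) / p) =
        6 * c.A / p * (Real.exp (-((2 * M + 8) * ((k : ℝ) - a1))) * 16 ^ (k - a1)) := by ring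
    have e2 : 6 * (c.A : ℝ) / p * Real.exp (-(M * m)) * (1 / 2) ^ (k - a1) =
        6 * c.A / p * (Real.exp (-(M * m)) * (1 / 2) ^ (k - a1)) := by ring
    rw [e1, e2]
    exact mul_le_mul_of_nonneg_left ht (by positivity)
  have ht3 : ∑ w ∈ W, ∑ k ∈ I3, PN c.q (ρ w) (S3 k w) ≤
      ENNReal.ofReal (12 * c.A / p * (16 ^ m * β)) := by
    rw [Finset.sum_comm]
    refine (Finset.sum_le_sum hs3).trans ?_
    rw [← ENNReal.ofReal_sum_of_nonneg (fun i _ => by positivity)]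
    apply ENNReal.ofReal_le_ofReal
    have e1 : ∑ k ∈ I3, 3 * (c.A : ℝ) / p * β * 16 ^ (k - a1) =
        3 * (c.A : ℝ) / p * β * ∑ i ∈ Finset.range (m + 1), (16 : ℝ) ^ i := by
      rw [Finset.mul_sum]
      have : I3 = (Finset.range (m + 1)).image (fun i => a1 + i) := by
        ext k
        simp only [I3, Finset.mem_Icc, Finset.mem_image, Finset.mem_range]
        constructor
        · intro hk; exact ⟨k - a1, by omega, by omega⟩
        · rintro ⟨i, hi, rfl⟩; omega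
      rw [this, Finset.sum_image (fun x _ y _ h => by simpa using h)]
      refine Finset.sum_congr rfl fun i _ => ?_
      rw [Nat.add_sub_cancel_left]
    rw [e1]
    have := mul_le_mul_of_nonneg_left (geo_sum m) (show 0 ≤ 3 * (c.A : ℝ) / p * β by positivity)
    refine this.trans ?_
    have h9 : (0 : ℝ) ≤ c.A / p * (16 ^ m * β) := by positivity
    calc 3 * (c.A : ℝ) / p * β * (2 * 16 ^ m) = 6 * (c.A / p * (16 ^ m * β)) := by ring
      _ ≤ 12 * (c.A / p * (16 ^ m * β)) := by linarith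
      _ = _ := by ring
  have ht4 : ∑ w ∈ W, ∑ k ∈ I4, PN c.q (ρ w) (S4 k w) ≤
      ENNReal.ofReal (12 * c.A / p * Real.exp (-(M * m))) := by
    rw [Finset.sum_comm]
    refine (Finset.sum_le_sum hs4).trans ?_
    rw [← ENNReal.ofReal_sum_of_nonneg (fun i _ => by positivity)]
    apply ENNReal.ofReal_le_ofReal
    rw [← Finset.mul_sum]
    have e1 : ∑ k ∈ I4, ((1 : ℝ) / 2) ^ (k - a1) ≤ ∑ i ∈ Finset.range (K + 1), ((1 : ℝ) / 2) ^ i := by
      have : ∑ k ∈ I4, ((1 : ℝ) / 2) ^ (k - a1) =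
          ∑ i ∈ I4.image (fun k => k - a1), ((1 : ℝ) / 2) ^ i := by
        rw [Finset.sum_image]
        intro x hx y hy hxy
        simp only [I4, Finset.coe_Ioc, Set.mem_Ioc] at hx hy
        simp only at hxy
        omega
      rw [this]
      refine Finset.sum_le_sum_of_subset_of_nonneg ?_ (fun i _ _ => by positivity)
      intro i hi
      simp only [I4, Finset.mem_image, Finset.mem_Ioc] at hi
      obtain ⟨k, hk, rfl⟩ := hi
      rw [Finset.mem_range]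
      omega
    have := mul_le_mul_of_nonneg_left (e1.trans (half_sum _))
      (show 0 ≤ 6 * (c.A : ℝ) / p * Real.exp (-(M * m)) by positivity)
    refine this.trans (le_of_eq ?_)
    ring
  calc ∑ w ∈ W, PN c.q (ρ w) {E | Lam (eA E) o e j ∈ win a1 w ∧ E ∈ Bad w}
      ≤ ∑ w ∈ W, (PN c.q (ρ w) (S1 w) + (∑ k ∈ I3, PN c.q (ρ w) (S3 k w) +
        (∑ k ∈ I4, PN c.q (ρ w) (S4 k w) + (PN c.q (ρ w) (S5 w) + PN c.q (ρ w) (S6 w))))) :=
        Finset.sum_le_sum fun w _ => hstep w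
    _ = ∑ w ∈ W, PN c.q (ρ w) (S1 w) + (∑ w ∈ W, ∑ k ∈ I3, PN c.q (ρ w) (S3 k w) +
        (∑ w ∈ W, ∑ k ∈ I4, PN c.q (ρ w) (S4 k w) + (∑ w ∈ W, PN c.q (ρ w) (S5 w) +
          ∑ w ∈ W, PN c.q (ρ w) (S6 w)))) := by
        simp only [Finset.sum_add_distrib]
    _ ≤ ENNReal.ofReal (C1 * Real.exp (-Real.exp (c1 * K))) +
        (ENNReal.ofReal (12 * c.A / p * (16 ^ m * β)) +
        (ENNReal.ofReal (12 * c.A / p * Real.exp (-(M * m))) +
        (ENNReal.ofReal (C5 * Real.exp (-(M * m))) +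
          ENNReal.ofReal (C6 * Real.exp (-(M * m)))))) :=
        add_le_add hs1 (add_le_add ht3 (add_le_add ht4 (add_le_add hs5 hs6)))
    _ ≤ _ := by
        rw [← ENNReal.ofReal_add (by positivity) (by positivity),
          ← ENNReal.ofReal_add (by positivity) (by positivity),
          ← ENNReal.ofReal_add (by positivity) (by positivity),
          ← ENNReal.ofReal_add (by positivity) (by positivity)]
        apply ENNReal.ofReal_le_ofReal
        have x1 : (0 : ℝ) ≤ 16 ^ m * β := by positivity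
        have x2 : (0 : ℝ) ≤ Real.exp (-(M * m)) := (Real.exp_pos _).le
        have x3 : (0 : ℝ) ≤ Real.exp (-Real.exp (c1 * K)) := (Real.exp_pos _).le
        have y1 : (0 : ℝ) ≤ 12 * c.A / p := by positivity
        have z1 := mul_nonneg y1 x3
        have z2 := mul_nonneg hC1.le x1
        have z3 := mul_nonneg hC1.le x2
        have z4 := mul_nonneg hC5.le x1
        have z5 := mul_nonneg hC5.le x3
        have z6 := mul_nonneg hC6.le x1
        have z7 := mul_nonneg hC6.le x3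
        nlinarith

end Pool.Agent.H95.PD
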