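import Pool.Agent.H95.ND.Targets

/-!
# MP_57ddd5_pr: module WSM
-/

namespace Pool.Agent.H95.PD

open Pool.Agent.H95.ND

theorem sq_sum (N : ℕ) : ∑ m ∈ Finset.range N, 1 / ((m : ℝ) + 1) ^ 2 ≤ 2 := by
  have h : ∀ N : ℕ, ∑ m ∈ Finset.range N, 1 / ((m : ℝ) + 1) ^ 2 ≤ 2 - 1 / (N : ℝ) ∨ N = 0 := by
    intro N
    induction N with
    | zero => right; rfl
    | succ n ih =>
      left
      rcases ih with ih | rfl
      · rw [Finset.sum_range_succ]
        rcases Nat.eq_zero_or_pos n with rfl | hn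
        · norm_num
        · have hn' : (0 : ℝ) < n := by exact_mod_cast hn
          have h1 : 1 / ((n : ℝ) + 1) ^ 2 ≤ 1 / (n : ℝ) - 1 / ((n : ℝ) + 1) := by
            have e : 1 / (n : ℝ) - 1 / ((n : ℝ) + 1) = 1 / (n * (n + 1)) := by
              field_simp
              ring
            rw [e]
            apply one_div_le_one_div_of_le (by positivity)
            nlinarith
          push_cast
          linarith
      · norm_num
  rcases h N with h1 | rfl
  · have : (0 : ℝ) ≤ 1 / (N : ℝ) := by positivity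
    linarith
  · simp

theorem pf_WSM : T_WSM := by
  intro c s hc hs
  obtain ⟨p, hp⟩ := exists_nat_ge (3 / s)
  have hps : 3 ≤ s * p := by
    rw [div_le_iff₀ hs] at hp
    linarith
  set B : ℝ := (p.factorial : ℝ) * (4 / c) ^ p with hB
  have hB0 : 0 < B := by positivity
  set l : ℝ := (101 / 100 : ℝ) ^ s with hl
  have hl1 : 1 < l := Real.one_lt_rpow (by norm_num) hs
  set b : ℝ := Real.log l with hb
  have hb0 : 0 < b := Real.log_pos hl1
  set g : ℝ := Real.log 4096 with hg
  set E : ℝ := Real.exp (2 * g ^ 2 / (c * b ^ 2)) with hE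
  have hE0 : 0 < E := Real.exp_pos _
  refine ⟨16 * B * E, c / 2, by positivity, by positivity, ?_⟩
  intro K0 d n N hK0 hdn
  set x : ℝ := str K0 n with hx
  have hxL : (101 / 100 : ℝ) ^ n ≤ x := by
    rw [hx]
    unfold str
    have : (0 : ℝ) ≤ (101 / 100) ^ n := by positivity
    nlinarith
  have hx1 : 1 ≤ x := le_trans (one_le_pow₀ (by norm_num)) hxL
  have hx0 : 0 ≤ x := by linarith
  set X : ℝ := x ^ s with hX
  have hX1 : 1 ≤ X := Real.one_le_rpow hx1 hs.le
  have hXl : l ^ n ≤ X := by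
    have h1 : l ^ n = ((101 / 100 : ℝ) ^ n) ^ s := by
      rw [hl, ← Real.rpow_natCast, ← Real.rpow_mul (by norm_num), mul_comm, Real.rpow_mul
        (by norm_num), Real.rpow_natCast]
    rw [h1]
    exact Real.rpow_le_rpow (by positivity) hxL hs.le
  -- the growing factor is absorbed
  have habs : (16 : ℝ) ^ (3 * d) * Real.exp (-(c / 4 * X)) ≤ E := by
    have h1 : (16 : ℝ) ^ (3 * d) ≤ Real.exp (n * g) := by
      calc (16 : ℝ) ^ (3 * d) ≤ 16 ^ (3 * n) := pow_le_pow_right₀ (by norm_num) (by omega)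
        _ = 4096 ^ n := by rw [pow_mul]; norm_num
        _ = Real.exp (n * g) := by
          rw [Real.exp_nat_mul, hg, Real.exp_log (by norm_num)]
    have h2 : (n * b) ^ 2 / 2 ≤ X := by
      refine le_trans ?_ hXl
      have h3 : l ^ n = Real.exp (n * b) := by
        rw [Real.exp_nat_mul, hb, Real.exp_log (by linarith)]
      rw [h3]
      have h4 : 0 ≤ n * b := by positivity
      have := Real.quadratic_le_exp_of_nonneg h4
      linarith
    calc (16 : ℝ) ^ (3 * d) * Real.exp (-(c / 4 * X))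
        ≤ Real.exp (n * g) * Real.exp (-(c / 4 * ((n * b) ^ 2 / 2))) := by
          apply mul_le_mul h1 _ (Real.exp_pos _).le (Real.exp_pos _).le
          apply Real.exp_le_exp.2
          have : c / 4 * ((n * b) ^ 2 / 2) ≤ c / 4 * X :=
            mul_le_mul_of_nonneg_left h2 (by positivity)
          linarith
      _ = Real.exp (n * g + -(c / 4 * ((n * b) ^ 2 / 2))) := by rw [Real.exp_add]
      _ ≤ E := by
          rw [hE]
          apply Real.exp_le_exp.2
          rw [le_div_iff₀ (by positivity)]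
          have h5 : 0 ≤ (c * b ^ 2 * n - 4 * g) ^ 2 := sq_nonneg _
          nlinarith
  -- each term
  have hterm : ∀ m ∈ Finset.range N,
      (8 * (m : ℝ) + 1) * Real.exp (-(c * (x * (1 + m / 16 ^ d)) ^ s)) ≤
      8 * B * E * Real.exp (-(c / 2 * X)) * (1 / ((m : ℝ) + 1) ^ 2) := by
    intro m _
    set y : ℝ := 1 + m / 16 ^ d with hy
    have hm0 : (0 : ℝ) ≤ m := by positivity
    have hd0 : (0 : ℝ) < 16 ^ d := by positivity
    have hd1 : (1 : ℝ) ≤ 16 ^ d := one_le_pow₀ (by norm_num)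
    have hy1 : 1 ≤ y := by
      rw [hy]
      have : (0 : ℝ) ≤ m / 16 ^ d := by positivity
      linarith
    have hy0 : 0 < y := by linarith
    set Y : ℝ := y ^ s with hY
    have hY1 : 1 ≤ Y := Real.one_le_rpow hy1 hs.le
    have e1 : (x * y) ^ s = X * Y := Real.mul_rpow hx0 hy0.le
    have h1 : Real.exp (-(c * (x * y) ^ s)) ≤
        Real.exp (-(c / 2 * X)) * (Real.exp (-(c / 4 * X)) * Real.exp (-(c / 4 * Y))) := by
      rw [e1, ← Real.exp_add, ← Real.exp_add]
      apply Real.exp_le_exp.2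
      have h2 : X ≤ X * Y := le_mul_of_one_le_right (by linarith) hY1
      have h3 : Y ≤ X * Y := le_mul_of_one_le_left (by linarith) hX1
      nlinarith
    have h2 : Real.exp (-(c / 4 * Y)) ≤ B * (1 / y ^ 3) := by
      have h3 : (c / 4 * Y) ^ p / p.factorial ≤ Real.exp (c / 4 * Y) :=
        Real.pow_div_factorial_le_exp _ (by positivity) p
      have h4 : y ^ 3 ≤ Y ^ p := by
        have : Y ^ p = y ^ (s * p) := by
          rw [hY, ← Real.rpow_natCast, ← Real.rpow_mul hy0.le]
        rw [this, ← Real.rpow_natCast]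
        apply Real.rpow_le_rpow_of_exponent_le hy1
        push_cast
        exact hps
      rw [Real.exp_neg]
      have h5 : 0 < (c / 4 * Y) ^ p / p.factorial := by positivity
      calc (Real.exp (c / 4 * Y))⁻¹ ≤ ((c / 4 * Y) ^ p / p.factorial)⁻¹ := inv_anti₀ h5 h3
        _ = B * (1 / Y ^ p) := by
          rw [hB, mul_pow, div_pow, div_pow]
          field_simp
        _ ≤ B * (1 / y ^ 3) := by
          apply mul_le_mul_of_nonneg_left _ hB0.le
          exact one_div_le_one_div_of_le (by positivity) h4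
    have h3 : (8 * (m : ℝ) + 1) * (1 / y ^ 3) ≤ 8 * 16 ^ (3 * d) * (1 / ((m : ℝ) + 1) ^ 2) := by
      have h4 : ((m : ℝ) + 1) / 16 ^ d ≤ y := by
        rw [hy, add_div]
        have : 1 / (16 : ℝ) ^ d ≤ 1 := by
          rw [div_le_one hd0]
          exact hd1
        linarith
      have h5 : 1 / y ^ 3 ≤ 16 ^ (3 * d) / ((m : ℝ) + 1) ^ 3 := by
        have h6 : (((m : ℝ) + 1) / 16 ^ d) ^ 3 ≤ y ^ 3 := pow_le_pow_left₀ (by positivity) h4 3
        calc 1 / y ^ 3 ≤ 1 / (((m : ℝ) + 1) / 16 ^ d) ^ 3 :=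
              one_div_le_one_div_of_le (by positivity) h6
          _ = 16 ^ (3 * d) / ((m : ℝ) + 1) ^ 3 := by
            rw [div_pow, one_div_div, ← pow_mul, mul_comm d 3]
      calc (8 * (m : ℝ) + 1) * (1 / y ^ 3) ≤
          (8 * ((m : ℝ) + 1)) * (16 ^ (3 * d) / ((m : ℝ) + 1) ^ 3) := by
            apply mul_le_mul (by linarith) h5 (by positivity) (by positivity)
        _ = 8 * 16 ^ (3 * d) * (1 / ((m : ℝ) + 1) ^ 2) := by
            field_simp
    calc (8 * (m : ℝ) + 1) * Real.exp (-(c * (x * y) ^ s))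
        ≤ (8 * (m : ℝ) + 1) * (Real.exp (-(c / 2 * X)) * (Real.exp (-(c / 4 * X)) *
          (B * (1 / y ^ 3)))) := by
          apply mul_le_mul_of_nonneg_left _ (by positivity)
          refine h1.trans ?_
          apply mul_le_mul_of_nonneg_left _ (Real.exp_pos _).le
          exact mul_le_mul_of_nonneg_left h2 (Real.exp_pos _).le
      _ = Real.exp (-(c / 2 * X)) * B * Real.exp (-(c / 4 * X)) *
          ((8 * (m : ℝ) + 1) * (1 / y ^ 3)) := by ring
      _ ≤ Real.exp (-(c / 2 * X)) * B * Real.exp (-(c / 4 * X)) *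
          (8 * 16 ^ (3 * d) * (1 / ((m : ℝ) + 1) ^ 2)) :=
          mul_le_mul_of_nonneg_left h3 (by positivity)
      _ = 8 * B * (16 ^ (3 * d) * Real.exp (-(c / 4 * X))) * Real.exp (-(c / 2 * X)) *
          (1 / ((m : ℝ) + 1) ^ 2) := by ring
      _ ≤ 8 * B * E * Real.exp (-(c / 2 * X)) * (1 / ((m : ℝ) + 1) ^ 2) := by
          apply mul_le_mul_of_nonneg_right _ (by positivity)
          apply mul_le_mul_of_nonneg_right _ (Real.exp_pos _).le
          exact mul_le_mul_of_nonneg_left habs (by positivity)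
  refine (Finset.sum_le_sum hterm).trans ?_
  rw [← Finset.mul_sum]
  have h9 := mul_le_mul_of_nonneg_left (sq_sum N)
    (show 0 ≤ 8 * B * E * Real.exp (-(c / 2 * X)) by positivity)
  refine h9.trans (le_of_eq ?_)
  ring

end Pool.Agent.H95.PD
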