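import Pool.Agent.H95.ND.Targets

/-!
# MP_57ddd5_pr: module XFA
-/

namespace Pool.Agent.H95.PD

open Pool.Agent.H95.ND

theorem pf_XFA : T_XFA := by
  intro A
  refine ⟨max 4800 (400 * (A.toNat + 1)), ?_⟩
  intro K a hK hKa
  have hK1 : 4800 ≤ K := le_trans (le_max_left _ _) hK
  have hK2 : 400 * (A.toNat + 1) ≤ K := le_trans (le_max_right _ _) hK
  have ha : 120 ≤ a := by omega
  set n := K / 400 with hn
  have hnA : A.toNat ≤ n := by omega
  have hn1 : n * 400 ≤ K := Nat.div_mul_le_self K 400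
  have h24 : 24 * n + 72 ≤ 3 * a := by omega
  have hX : Xf K = 4 ^ n := rfl
  have h1 : A ≤ 4 ^ n := by
    have h2 : (A.toNat : ℤ) < 4 ^ n := by
      have h3 : A.toNat < 4 ^ n := lt_of_le_of_lt hnA (Nat.lt_pow_self (by norm_num))
      exact_mod_cast h3
    have := Int.self_le_toNat A
    omega
  refine ⟨?_, ?_, ?_, by omega, by omega⟩
  · rw [hX]; exact h1
  · unfold Sml
    rw [hX]
    have h4 : (16 : ℤ) * 4 ^ n + 2 ≤ 4 ^ (n + 3) := by
      have : (1 : ℤ) ≤ 4 ^ n := one_le_pow₀ (by norm_num)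
      rw [pow_add]
      linarith
    calc ((16 : ℤ) * 4 ^ n + 2) ^ 24 ≤ (4 ^ (n + 3)) ^ 24 :=
          pow_le_pow_left₀ (by positivity) h4 24
      _ = 4 ^ (24 * n + 72) := by rw [← pow_mul]; congr 1; ring
      _ ≤ 4 ^ (3 * a) := pow_le_pow_right₀ (by norm_num) h24
      _ = 64 ^ a := by rw [pow_mul]; norm_num
  · rw [hX]
    calc (4 : ℤ) * 4 ^ n = 4 ^ (n + 1) := by rw [pow_succ]; ring
      _ ≤ 4 ^ a := pow_le_pow_right₀ (by norm_num) (by omega)

end Pool.Agent.H95.PD
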